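import Pool.Agent.Smt.Class

/-!
# The model in characteristic 2: abstract part  (module OM/Abs)

`S` is an associative algebra over a commutative ring `R` of characteristic 2, `lam ∈ R`, `lam ^ 4 = 1`,
`nu = lam ^ 2 + 1` (so `nu ^ 2 = 0`), `E`, `E2` are linear maps with `E (a b) = E a b + a E b`,
`E2 (a b) = E2 a b + E a E b + a E2 b`, `E E = 0`, `E E2 = E2 E`, `a b + b a = E a E b`, `E a E a = 0`. Then `S` with the product
`a b + nu lam E2 a E b` and the involution `a + lam E a + nu E2 a` is an alternative algebra with central traces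
and norms.
-/

set_option autoImplicit false
set_option linter.unusedSectionVars false

namespace Pool.Agent.OM

open FreeNonUnitalNonAssocAlgebra Pool.Agent.H.MP_41922c_al Pool.Agent.Smt

variable {R S : Type*} [CommRing R] [Ring S] [Algebra R S]

/-- the data -/
structure Dat (E E2 : S →ₗ[R] S) (lam : R) : Prop where
  t2 : (2 : R) = 0
  l4 : lam ^ 4 = 1
  e1 : ∀ a b, E (a * b) = E a * b + a * E b
  e2 : ∀ a b, E2 (a * b) = E2 a * b + E a * E b + a * E2 b
  ee : ∀ a, E (E a) = 0
  e12 : ∀ a, E (E2 a) = E2 (E a)
  cm : ∀ a b, a * b = b * a + E a * E b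
  sq : ∀ a, E a * E a = 0

/-- the algebra -/
@[nolint unusedArguments]
def MA (_E _E2 : S →ₗ[R] S) (_lam : R) : Type _ := S

variable {E E2 : S →ₗ[R] S} {lam : R}

/-- addition -/
@[reducible] def iMAa : AddCommGroup (MA E E2 lam) := inferInstanceAs (AddCommGroup S)

attribute [local instance] iMAa

/-- scalars -/
@[reducible] def iMAm : Module R (MA E E2 lam) := inferInstanceAs (Module R S)

attribute [local instance] iMAm

/-- the product -/
def mul' (E E2 : S →ₗ[R] S) (lam : R) (a b : S) : S :=
  a * b + ((lam ^ 2 + 1) * lam) • (E2 a * E b)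

/-- the involution -/
def bar' (E E2 : S →ₗ[R] S) (lam : R) : S →ₗ[R] S := LinearMap.id + lam • E + (lam ^ 2 + 1) • E2

theorem bar'_apply (a : S) : bar' E E2 lam a = a + lam • E a + (lam ^ 2 + 1) • E2 a := rfl

theorem mul'_add (a b c : S) : mul' E E2 lam a (b + c) = mul' E E2 lam a b + mul' E E2 lam a c := by
  simp only [mul', map_add, mul_add, smul_add]
  abel

theorem add_mul' (a b c : S) : mul' E E2 lam (a + b) c = mul' E E2 lam a c + mul' E E2 lam b c := by
  simp only [mul', map_add, add_mul, smul_add]
  abel

theorem zero_mul' (a : S) : mul' E E2 lam 0 a = 0 := by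
  simp only [mul', map_zero, zero_mul, smul_zero, add_zero]

theorem mul'_zero (a : S) : mul' E E2 lam a 0 = 0 := by
  simp only [mul', map_zero, mul_zero, smul_zero, add_zero]

theorem smul_mul' (r : R) (a b : S) : mul' E E2 lam (r • a) b = r • mul' E E2 lam a b := by
  simp only [mul', map_smul, smul_mul_assoc, smul_add, smul_smul, mul_comm r]

theorem mul'_smul (r : R) (a b : S) : mul' E E2 lam a (r • b) = r • mul' E E2 lam a b := by
  simp only [mul', map_smul, mul_smul_comm, smul_add, smul_smul, mul_comm r]

/-- the product -/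
@[reducible] def iMAmul : Mul (MA E E2 lam) := ⟨(mul' E E2 lam : S → S → S)⟩

attribute [local instance] iMAmul

/-- the ring structure -/
@[reducible] def iMAr : NonUnitalNonAssocRing (MA E E2 lam) where
  left_distrib a b c := mul'_add (E := E) (E2 := E2) (lam := lam) (a : S) (b : S) (c : S)
  right_distrib a b c := add_mul' (E := E) (E2 := E2) (lam := lam) (a : S) (b : S) (c : S)
  zero_mul a := zero_mul' (E := E) (E2 := E2) (lam := lam) (a : S)
  mul_zero a := mul'_zero (E := E) (E2 := E2) (lam := lam) (a : S)

attribute [local instance] iMAr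

theorem iMAt : IsScalarTower R (MA E E2 lam) (MA E E2 lam) :=
  ⟨fun r a b => smul_mul' (E := E) (E2 := E2) (lam := lam) r (a : S) (b : S)⟩

attribute [local instance] iMAt

theorem iMAc : SMulCommClass R (MA E E2 lam) (MA E E2 lam) :=
  ⟨fun r a b => (mul'_smul (E := E) (E2 := E2) (lam := lam) r (a : S) (b : S)).symm⟩

attribute [local instance] iMAc

namespace Dat

variable (D : Dat E E2 lam)
include D

theorem two (a : S) : a + a = 0 := by
  have h1 : (1 + 1 : R) = 0 := by
    rw [one_add_one_eq_two, D.t2]
  have h : a + a = (1 + 1 : R) • a := by rw [add_smul, one_smul]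
  rw [h, h1, zero_smul]

theorem neg (a : S) : -a = a := neg_eq_of_add_eq_zero_left (D.two a)

theorem sub (a b : S) : a - b = a + b := by rw [sub_eq_add_neg, D.neg]

theorem nu2 : (lam ^ 2 + 1) * (lam ^ 2 + 1) = 0 := by
  linear_combination D.l4 + (lam ^ 2 + 1) * D.t2

/-- `E a` commutes with everything -/
theorem ec (a b : S) : E a * b = b * E a := by
  rw [D.cm (E a) b, D.ee, zero_mul, add_zero]

theorem assoc' (a b c : S) : mul' E E2 lam (mul' E E2 lam a b) c - mul' E E2 lam a (mul' E E2 lam b c)
    = ((lam ^ 2 + 1) * lam) • (E a * (E b * E c)) := by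
  have h0 := D.nu2
  simp only [mul', map_add, map_smul, add_mul, mul_add, D.e1, D.e2, smul_add, smul_mul_assoc,
    mul_smul_comm, smul_smul, mul_assoc, D.ee, mul_zero, D.e12]
  match_scalars
  all_goals first | ring1 | linear_combination lam ^ 2 * h0

theorem bar_mul' (a b : S) : bar' E E2 lam (mul' E E2 lam a b)
    = mul' E E2 lam (bar' E E2 lam b) (bar' E E2 lam a) := by
  have h0 := D.nu2
  have h1 := D.cm b a
  have h2 := D.cm b (E2 a)
  have h3 := D.cm (E2 b) a
  have h4 := D.ec b a
  have h5 := D.ec b (E2 a)
  have h6 := D.ec b (E a)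
  have h7 := D.ec (E2 b) (E a)
  rw [D.e12] at h2 h3 h7
  have h8 := D.ec (E2 b) (E2 a)
  have h9 := D.cm (E2 b) (E2 a)
  have h10 := (D.ec a (E2 b)).symm
  have h11 := (D.ec a b).symm
  have h12 := (D.ec (E2 a) b).symm
  have h13 := D.ec b (E2 (E a))
  rw [D.e12] at h8 h12
  rw [D.e12, D.e12] at h9
  simp only [bar'_apply, mul', map_add, map_smul, add_mul, mul_add, D.e1, D.e2, smul_add, smul_mul_assoc,
    mul_smul_comm, smul_smul, mul_assoc, D.ee, mul_zero, zero_mul, D.e12, h1, h2, h3, h4, h5, h6, h7, h8, h9, h10, h11, h12, h13]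
  match_scalars
  all_goals first | ring1 | linear_combination lam ^ 2 * h0 | linear_combination (-lam) * h0 |
    linear_combination (-lam * (lam ^ 2 + 1)) * D.t2 |  linear_combination lam * h0 | linear_combination -h0 |
    linear_combination h0 | linear_combination D.l4 | linear_combination (-(1 + lam ^ 2)) * h0 |
    linear_combination (-(lam * (lam ^ 2 + 1))) * h0

theorem bar_bar' (a : S) : bar' E E2 lam (bar' E E2 lam a) = a := by
  have h0 := D.nu2
  simp only [bar'_apply, map_add, map_smul, smul_add, smul_smul, D.ee, D.e12]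
  match_scalars
  all_goals first | ring1 | linear_combination lam * D.t2 | linear_combination (lam ^ 2 + 1) * D.t2 |
    linear_combination (lam * (lam ^ 2 + 1)) * D.t2 | linear_combination h0

theorem tr_comm' (a b : S) : mul' E E2 lam (a + bar' E E2 lam a) b - mul' E E2 lam b (a + bar' E E2 lam a) = 0 := by
  have h0 := D.nu2
  have h1 := D.cm b a
  have h2 := D.cm b (E2 a)
  have h3 := D.cm (E2 b) a
  have h4 := D.ec b a
  have h5 := D.ec b (E2 a)
  have h6 := D.ec b (E a)
  have h7 := D.ec (E2 b) (E a)
  rw [D.e12] at h2 h3 h7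
  have h8 := D.ec (E2 b) (E2 a)
  have h9 := D.cm (E2 b) (E2 a)
  have h10 := (D.ec a (E2 b)).symm
  have h11 := (D.ec a b).symm
  have h12 := (D.ec (E2 a) b).symm
  have h13 := D.ec b (E2 (E a))
  have h14 := (D.ec (E2 a) (E2 b)).symm
  have h15 := D.ec b (E2 (E2 a))
  rw [D.e12] at h8 h12 h14
  rw [D.e12, D.e12] at h9
  simp only [bar'_apply, mul', map_add, map_smul, add_mul, mul_add, D.e1, D.e2, smul_add, smul_mul_assoc,
    mul_smul_comm, smul_smul, mul_assoc, D.ee, mul_zero, zero_mul, D.e12, h1, h2, h3, h4, h5, h6, h7, h8, h9, h10, h11, h12, h13, h14, h15]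
  match_scalars
  all_goals first
    | ring1
    | linear_combination h0
    | linear_combination (-1 : R) * h0
    | linear_combination lam * h0
    | linear_combination (-lam) * h0
    | linear_combination lam ^ 2 * h0
    | linear_combination (-lam ^ 2) * h0
    | linear_combination D.l4
    | linear_combination (-1 : R) * D.l4
    | linear_combination D.t2
    | linear_combination (-1 : R) * D.t2
    | linear_combination lam * D.t2
    | linear_combination (-lam) * D.t2
    | linear_combination (lam ^ 2 + 1) * D.t2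
    | linear_combination (-(lam ^ 2 + 1)) * D.t2
    | linear_combination (lam * (lam ^ 2 + 1)) * D.t2
    | linear_combination (-(lam * (lam ^ 2 + 1))) * D.t2
    | linear_combination (-(1 + lam ^ 2)) * h0
    | linear_combination (1 + lam ^ 2) * h0
    | linear_combination (lam * (lam ^ 2 + 1)) * D.t2 + lam * h0
    | linear_combination (2 * lam) * h0
    | linear_combination (lam ^ 2 * (lam ^ 2 + 1)) * h0
    | linear_combination (lam * (lam ^ 2 + 1)) * h0
    | linear_combination (-(lam * (lam ^ 2 + 1))) * h0

theorem nm_E (a : S) : (lam ^ 2 + 1) • E (mul' E E2 lam a (bar' E E2 lam a)) = 0 := by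
  have h0 := D.nu2
  have h3 := D.sq a
  have h4 := D.cm a (E2 a)
  have h5 := (D.ec a (E2 a)).symm
  have h6 := (D.ec a a).symm
  have h7 := (D.ec (E2 a) (E a)).symm
  have h8 := (D.ec (E2 a) a).symm
  rw [D.e12] at h4 h7 h8
  simp only [bar'_apply, mul', map_add, map_smul, add_mul, mul_add, D.e1, D.e2, smul_add, smul_mul_assoc,
    mul_smul_comm, smul_smul, mul_assoc, D.ee, mul_zero, zero_mul, D.e12, h3, h4, h5, h6, h7, h8]
  match_scalars
  all_goals first
    | ring1
    | linear_combination h0
    | linear_combination (-1 : R) * h0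
    | linear_combination lam * h0
    | linear_combination (-lam) * h0
    | linear_combination lam ^ 2 * h0
    | linear_combination (-lam ^ 2) * h0
    | linear_combination D.l4
    | linear_combination (-1 : R) * D.l4
    | linear_combination D.t2
    | linear_combination (-1 : R) * D.t2
    | linear_combination lam * D.t2
    | linear_combination (-lam) * D.t2
    | linear_combination (lam ^ 2 + 1) * D.t2
    | linear_combination (-(lam ^ 2 + 1)) * D.t2
    | linear_combination (lam * (lam ^ 2 + 1)) * D.t2
    | linear_combination (-(lam * (lam ^ 2 + 1))) * D.t2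
    | linear_combination (-(1 + lam ^ 2)) * h0
    | linear_combination (1 + lam ^ 2) * h0
    | linear_combination (lam * (lam ^ 2 + 1)) * D.t2 + lam * h0
    | linear_combination (2 * lam) * h0
    | linear_combination (lam ^ 2 * (lam ^ 2 + 1)) * h0
    | linear_combination (lam * (lam ^ 2 + 1)) * h0
    | linear_combination (-(lam * (lam ^ 2 + 1))) * h0

theorem nm_E2 (a : S) : E (mul' E E2 lam a (bar' E E2 lam a))
      + ((lam ^ 2 + 1) * lam) • E2 (mul' E E2 lam a (bar' E E2 lam a)) = 0 := by
  have h0 := D.nu2
  have h3 := D.sq a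
  have h4 := D.cm a (E2 a)
  have h5 := (D.ec a (E2 a)).symm
  have h6 := (D.ec a a).symm
  have h7 := (D.ec (E2 a) (E a)).symm
  have h8 := (D.ec (E2 a) a).symm
  rw [D.e12] at h4 h7 h8
  have h9 := (D.ec (E2 a) (E2 a)).symm
  rw [D.e12] at h9
  simp only [bar'_apply, mul', map_add, map_smul, add_mul, mul_add, D.e1, D.e2, smul_add, smul_mul_assoc,
    mul_smul_comm, smul_smul, mul_assoc, D.ee, mul_zero, zero_mul, map_zero, smul_zero, D.e12,
    h3, h4, h5, h6, h7, h8, h9]
  match_scalars
  all_goals first
    | ring1
    | linear_combination h0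
    | linear_combination (-1 : R) * h0
    | linear_combination lam * h0
    | linear_combination (-lam) * h0
    | linear_combination lam ^ 2 * h0
    | linear_combination (-lam ^ 2) * h0
    | linear_combination D.l4
    | linear_combination (-1 : R) * D.l4
    | linear_combination D.t2
    | linear_combination (-1 : R) * D.t2
    | linear_combination lam * D.t2
    | linear_combination (-lam) * D.t2
    | linear_combination (lam ^ 2 + 1) * D.t2
    | linear_combination (-(lam ^ 2 + 1)) * D.t2
    | linear_combination (lam * (lam ^ 2 + 1)) * D.t2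
    | linear_combination (-(lam * (lam ^ 2 + 1))) * D.t2
    | linear_combination (-(1 + lam ^ 2)) * h0
    | linear_combination (1 + lam ^ 2) * h0
    | linear_combination (lam * (lam ^ 2 + 1)) * D.t2 + lam * h0
    | linear_combination (2 * lam) * h0
    | linear_combination (lam ^ 2 * (lam ^ 2 + 1)) * h0
    | linear_combination (lam * (lam ^ 2 + 1)) * h0
    | linear_combination (-(lam * (lam ^ 2 + 1))) * h0

theorem nm_comm' (a b : S) : mul' E E2 lam (mul' E E2 lam a (bar' E E2 lam a)) b
     - mul' E E2 lam b (mul' E E2 lam a (bar' E E2 lam a)) = 0 := by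
  have h2 := D.nm_E a
  have h4 : ((lam ^ 2 + 1) * lam) • E2 (mul' E E2 lam a (bar' E E2 lam a))
      = E (mul' E E2 lam a (bar' E E2 lam a)) := by
    rw [← sub_eq_zero, D.sub, add_comm, D.nm_E2]
  generalize mul' E E2 lam a (bar' E E2 lam a) = N at h2 h4
  have h5 : ((lam ^ 2 + 1) * lam) • (E2 b * E N) = 0 := by
    rw [mul_comm (lam ^ 2 + 1), mul_smul, ← mul_smul_comm, h2, mul_zero, smul_zero]
  rw [mul', mul', D.cm b N, h5, add_zero, ← smul_mul_assoc, h4, D.ec b (E N), sub_self]

theorem tr_assoc' (x y z : S) : mul' E E2 lam (mul' E E2 lam (x + bar' E E2 lam x) y) z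
      - mul' E E2 lam (x + bar' E E2 lam x) (mul' E E2 lam y z) = 0 := by
  have h0 := D.nu2
  rw [D.assoc', bar'_apply]
  simp only [map_add, map_smul, D.ee, smul_zero, zero_mul, D.e12, add_mul, smul_add, smul_mul_assoc, smul_smul,
    mul_add, mul_smul_comm]
  match_scalars
  all_goals first
    | ring1
    | linear_combination h0
    | linear_combination (-1 : R) * h0
    | linear_combination lam * h0
    | linear_combination (-lam) * h0
    | linear_combination lam ^ 2 * h0
    | linear_combination (-lam ^ 2) * h0
    | linear_combination D.l4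
    | linear_combination (-1 : R) * D.l4
    | linear_combination D.t2
    | linear_combination (-1 : R) * D.t2
    | linear_combination lam * D.t2
    | linear_combination (-lam) * D.t2
    | linear_combination (lam ^ 2 + 1) * D.t2
    | linear_combination (-(lam ^ 2 + 1)) * D.t2
    | linear_combination (lam * (lam ^ 2 + 1)) * D.t2
    | linear_combination (-(lam * (lam ^ 2 + 1))) * D.t2
    | linear_combination (-(1 + lam ^ 2)) * h0
    | linear_combination (1 + lam ^ 2) * h0
    | linear_combination (lam * (lam ^ 2 + 1)) * D.t2 + lam * h0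
    | linear_combination (2 * lam) * h0
    | linear_combination (lam ^ 2 * (lam ^ 2 + 1)) * h0
    | linear_combination (lam * (lam ^ 2 + 1)) * h0
    | linear_combination (-(lam * (lam ^ 2 + 1))) * h0

/-- the algebra has an involution with central traces and norms -/
theorem central : IsCentralInv R (MA E E2 lam) (bar' E E2 lam : S →ₗ[R] S) where
  left x y := by
    show mul' E E2 lam (mul' E E2 lam x x) y - mul' E E2 lam x (mul' E E2 lam x y) = 0
    rw [D.assoc', ← mul_assoc, D.sq, zero_mul, smul_zero]
  right x y := by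
    show mul' E E2 lam (mul' E E2 lam y x) x - mul' E E2 lam y (mul' E E2 lam x x) = 0
    rw [D.assoc', D.sq, mul_zero, smul_zero]
  invol x := D.bar_bar' x
  mul x y := D.bar_mul' x y
  tr_comm x y := D.tr_comm' x y
  tr_assoc x y z := D.tr_assoc' x y z
  nm_comm x y := D.nm_comm' x y
  nm_assoc x y z := by
    show mul' E E2 lam (mul' E E2 lam (mul' E E2 lam x (bar' E E2 lam x)) y) z
      - mul' E E2 lam (mul' E E2 lam x (bar' E E2 lam x)) (mul' E E2 lam y z) = 0
    rw [D.assoc', mul_comm (lam ^ 2 + 1), mul_smul, ← smul_mul_assoc, D.nm_E, zero_mul, smul_zero]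

end Dat

end Pool.Agent.OM
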