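import Pool.Agent.OM.Hom

/-!
# The model in characteristic 2: values of polynomials  (module OM/Pre)

`R` is an algebra over `Q`, `e i` and `(lam ^ 2 + 1) lam` come from `Q`, and `aug : Q → F` kills all `e i`. The operators of
the values of the polynomials in the `x_i` preserve `Q[x]`, and the right-nested products of the `x_i` are the multiplications
by monomials modulo the kernel of `aug`.
-/

set_option autoImplicit false
set_option linter.unusedSectionVars false

namespace Pool.Agent.OM

open FreeNonUnitalNonAssocAlgebra Pool.Agent.H.MP_41922c_al Pool.Agent.Smt Pool.Agent.OB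

section

variable {Q R : Type*} [CommRing Q] [CommRing R] [Algebra Q R]

/-- the operator preserves `Q[x]` -/
def Pres (Q : Type*) {R : Type*} [CommRing Q] [CommRing R] [Algebra Q R]
    (T : Module.End R (MvPolynomial ℕ R)) : Prop :=
  ∀ p : MvPolynomial ℕ Q, ∃ q : MvPolynomial ℕ Q,
    T (MvPolynomial.map (algebraMap Q R) p) = MvPolynomial.map (algebraMap Q R) q

theorem Pres.add {T U : Module.End R (MvPolynomial ℕ R)} (hT : Pres Q T) (hU : Pres Q U) : Pres Q (T + U) := by
  intro p
  obtain ⟨q, hq⟩ := hT p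
  obtain ⟨r, hr⟩ := hU p
  exact ⟨q + r, by rw [LinearMap.add_apply, hq, hr, map_add]⟩

theorem Pres.mul {T U : Module.End R (MvPolynomial ℕ R)} (hT : Pres Q T) (hU : Pres Q U) : Pres Q (T * U) := by
  intro p
  obtain ⟨r, hr⟩ := hU p
  obtain ⟨q, hq⟩ := hT r
  exact ⟨q, by rw [Module.End.mul_apply, hr, hq]⟩

theorem Pres.smul {T : Module.End R (MvPolynomial ℕ R)} (hT : Pres Q T) (k : Q) :
    Pres Q (algebraMap Q R k • T) := by
  intro p
  obtain ⟨q, hq⟩ := hT p
  refine ⟨MvPolynomial.C k * q, ?_⟩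
  rw [LinearMap.smul_apply, hq, map_mul, MvPolynomial.map_C, MvPolynomial.smul_eq_C_mul]

theorem Pres_zero : Pres Q (0 : Module.End R (MvPolynomial ℕ R)) :=
  fun p => ⟨0, by rw [map_zero, LinearMap.zero_apply]⟩

theorem Pres_one : Pres Q (1 : Module.End R (MvPolynomial ℕ R)) :=
  fun p => ⟨p, by rw [Module.End.one_apply]⟩

theorem Pres_mX (i : ℕ) : Pres Q (mX (R := R) i) :=
  fun p => ⟨MvPolynomial.X i * p, by rw [mX_apply, map_mul, MvPolynomial.map_X]⟩

theorem Pres_of {T U : Module.End R (MvPolynomial ℕ R)} (r : ℕ → Q) (h1 : T 1 = 0)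
    (h : ∀ j, T * mX j = mX j * T + algebraMap Q R (r j) • U) (hU : Pres Q U) : Pres Q T := by
  intro p
  induction p using MvPolynomial.induction_on with
  | C a =>
    have h2 : MvPolynomial.map (algebraMap Q R) (MvPolynomial.C a : MvPolynomial ℕ Q)
        = algebraMap Q R a • (1 : MvPolynomial ℕ R) := by
      rw [MvPolynomial.map_C, MvPolynomial.smul_eq_C_mul, mul_one]
    exact ⟨0, by rw [h2, map_smul, h1, smul_zero, map_zero]⟩
  | add p q hp hq =>
    obtain ⟨r, hr⟩ := hp
    obtain ⟨s, hs⟩ := hq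
    exact ⟨r + s, by rw [map_add, map_add, hr, hs, map_add]⟩
  | mul_X p j hp =>
    obtain ⟨q, hq⟩ := hp
    obtain ⟨s, hs⟩ := hU p
    have h2 := congrArg (fun V : Module.End R (MvPolynomial ℕ R) => V (MvPolynomial.map (algebraMap Q R) p)) (h j)
    have h3 : T (MvPolynomial.X j * MvPolynomial.map (algebraMap Q R) p)
      = MvPolynomial.X j * T (MvPolynomial.map (algebraMap Q R) p)
        + algebraMap Q R (r j) • U (MvPolynomial.map (algebraMap Q R) p) := h2
    refine ⟨MvPolynomial.X j * q + MvPolynomial.C (r j) * s, ?_⟩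
    rw [mul_comm p, map_mul, MvPolynomial.map_X, h3, hq, hs, map_add, map_mul, map_mul, MvPolynomial.map_X,
      MvPolynomial.map_C, MvPolynomial.smul_eq_C_mul]

variable {e : ℕ → R} {e' : ℕ → Q} (hee : ∀ i, e i = algebraMap Q R (e' i))
include hee

theorem Pres_EB : Pres Q (EB e) := Pres_of e' (EB_one e) (fun j => by rw [EB_mX, hee]) Pres_one

theorem Pres_PB (i : ℕ) : Pres Q (PB e i) := by
  refine Pres_of (fun j => if j < i then e' j else 0) (PB_one e i) (fun j => ?_) Pres_one
  rw [PB_mX, hee]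
  split_ifs with h
  · rfl
  · rw [map_zero]

theorem Pres_E2B : Pres Q (E2B e) := Pres_of e' (E2B_one e) (fun j => by rw [E2B_mX, hee]) (Pres_EB hee)

theorem Pres_Xh (i : ℕ) : Pres Q (Xh e i) := by
  rw [Xh, hee]
  exact (Pres_mX i).add ((Pres_PB hee i).smul _)

theorem Pres.EA {T : Module.End R (MvPolynomial ℕ R)} (hT : Pres Q T) : Pres Q (EA e T) := by
  rw [EA_apply]
  exact ((Pres_EB hee).mul hT).add (hT.mul (Pres_EB hee))

theorem Pres.E2A {T : Module.End R (MvPolynomial ℕ R)} (hT : Pres Q T) : Pres Q (E2A e T) := by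
  rw [E2A_apply]
  exact (((Pres_E2B hee).mul hT).add ((Pres_EB hee).mul (hT.mul (Pres_EB hee)))).add (hT.mul (Pres_E2B hee))

end

/-- the polynomials without `t` -/
noncomputable def eml (F : Type*) [Field F] : FA F →ₙₐ[F] FB F := lift F (fun i => of F (Sum.inl i))

section

variable {F : Type*} [Field F] {Q R : Type*} [CommRing Q] [CommRing R] [Algebra Q R] [Algebra F R] [Algebra F Q]
  [IsScalarTower F Q R] {e : ℕ → R} {e' : ℕ → Q} (hee : ∀ i, e i = algebraMap Q R (e' i)) {lam : R} {eta : Q}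
  (heta : (lam ^ 2 + 1) * lam = algebraMap Q R eta) (h2 : (2 : R) = 0) (he : ∀ i, e i * e i = 0)

/-- the values of the polynomials preserve `Q[x]` -/
theorem Pres_val (hee : ∀ i, e i = algebraMap Q R (e' i)) (heta : (lam ^ 2 + 1) * lam = algebraMap Q R eta)
    (f : FA F) : Pres Q (ov F e lam h2 he (Ps F e lam h2 he (eml F f))) := by
  refine Words_ind (F := F) (α := ℕ)
    (p := fun f => Pres Q (ov F e lam h2 he (Ps F e lam h2 he (eml F f)))) ?_ ?_ ?_ ?_ f
  · rw [map_zero, map_zero, map_zero]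
    exact Pres_zero
  · intro f g hf hg
    rw [map_add, map_add, map_add]
    exact hf.add hg
  · intro k f hf
    rw [map_smul, map_smul, MF_smul, map_smul, IsScalarTower.algebraMap_apply F Q R]
    exact hf.smul _
  · intro w
    induction w with
    | ih1 i =>
      show Pres Q (ov F e lam h2 he (Ps F e lam h2 he (eml F (of F i))))
      rw [eml, lift_of_apply, Ps_inl, ov_XF]
      exact Pres_Xh hee i
    | ih2 u v hu hv =>
      show Pres Q (ov F e lam h2 he (Ps F e lam h2 he (eml F (mo F u * mo F v))))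
      rw [map_mul, map_mul, ov_mul, heta]
      exact (hu.mul hv).add (((hu.E2A hee).mul (hv.EA hee)).smul _)

/-- the operator preserves `Q[x]`, and it is the multiplication with `m` modulo the kernel of `aug` -/
def Pres2 {F : Type*} [Field F] {Q R : Type*} [CommRing Q] [CommRing R] [Algebra Q R] (aug : Q →+* F)
    (T : Module.End R (MvPolynomial ℕ R)) (m : MvPolynomial ℕ F) : Prop :=
  ∀ p : MvPolynomial ℕ Q, ∃ q : MvPolynomial ℕ Q,
    T (MvPolynomial.map (algebraMap Q R) p) = MvPolynomial.map (algebraMap Q R) q ∧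
    MvPolynomial.map aug q = m * MvPolynomial.map aug p

variable {aug : Q →+* F}

theorem Pres2.mul {T U : Module.End R (MvPolynomial ℕ R)} {m n : MvPolynomial ℕ F} (hT : Pres2 aug T m)
    (hU : Pres2 aug U n) : Pres2 aug (T * U) (m * n) := by
  intro p
  obtain ⟨r, hr, hr'⟩ := hU p
  obtain ⟨q, hq, hq'⟩ := hT r
  exact ⟨q, by rw [Module.End.mul_apply, hr, hq], by rw [hq', hr', mul_assoc]⟩

theorem Pres2_one : Pres2 aug (1 : Module.End R (MvPolynomial ℕ R)) 1 :=
  fun p => ⟨p, by rw [Module.End.one_apply], by rw [one_mul]⟩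

theorem Pres2_Xh (hee : ∀ i, e i = algebraMap Q R (e' i)) (haug : ∀ i, aug (e' i) = 0) (i : ℕ) :
    Pres2 aug (Xh e i) (MvPolynomial.X i) := by
  intro p
  obtain ⟨q, hq⟩ := Pres_PB hee i p
  refine ⟨MvPolynomial.X i * p + MvPolynomial.C (e' i) * q, ?_, ?_⟩
  · rw [Xh, LinearMap.add_apply, LinearMap.smul_apply, hq, mX_apply, map_add, map_mul, map_mul, MvPolynomial.map_X,
      MvPolynomial.map_C, MvPolynomial.smul_eq_C_mul, hee]
  · rw [map_add, map_mul, map_mul, MvPolynomial.map_X, MvPolynomial.map_C, haug, map_zero, zero_mul, add_zero]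

theorem Pres2_prod (hee : ∀ i, e i = algebraMap Q R (e' i)) (haug : ∀ i, aug (e' i) = 0) (g : List ℕ) :
    Pres2 aug ((g.map (Xh e)).prod) ((g.map MvPolynomial.X).prod) := by
  induction g with
  | nil => exact Pres2_one
  | cons i g ih =>
    rw [List.map_cons, List.prod_cons, List.map_cons, List.prod_cons]
    exact (Pres2_Xh hee haug i).mul ih

end

section

variable (F : Type*) [Field F] {R : Type*} [CommRing R] [Algebra F R] (e : ℕ → R) (lam : R)
  (h2 : (2 : R) = 0) (he : ∀ i, e i * e i = 0)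

theorem mulOne (T : MF F e lam h2 he) : T * oneF F e lam h2 he = T := by
  apply ov_inj
  have h := EA_one e h2 1
  rw [one_smul] at h
  rw [ov_mul, ov_one, h, mul_zero, smul_zero, add_zero, mul_one]

theorem oneMul (T : MF F e lam h2 he) : oneF F e lam h2 he * T = T := by
  apply ov_inj
  have h := E2A_one e h2 1
  rw [one_smul] at h
  rw [ov_mul, ov_one, h, zero_mul, smul_zero, add_zero, one_mul]

/-- the right-nested product of the `x_i` -/
noncomputable def rpM : List ℕ → MF F e lam h2 he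
  | [] => oneF F e lam h2 he
  | i :: L => XF F e lam h2 he i * rpM L

theorem ov_rpM (g : List ℕ) : ov F e lam h2 he (rpM F e lam h2 he g) = (g.map (Xh e)).prod := by
  induction g with
  | nil => rfl
  | cons i g ih =>
    rw [rpM, ov_mul, ov_XF, E2A_X e h2 he, zero_mul, smul_zero, add_zero, ih]
    rfl

theorem com_XF (i j : ℕ) : com (XF F e lam h2 he i) (XF F e lam h2 he j) = (e i * e j) • oneF F e lam h2 he := by
  apply ov_inj
  rw [com, map_sub, ov_mul, ov_mul, ov_XF, ov_XF, E2A_X e h2 he, E2A_X e h2 he, zero_mul, zero_mul, smul_zero,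
    add_zero, add_zero, X_X e h2 he i j, add_sub_cancel_left, map_smul, ov_one]

theorem asc_XF (hl : lam ^ 4 = 1) (i j k : ℕ) :
    associator (XF F e lam h2 he i) (XF F e lam h2 he j) (XF F e lam h2 he k)
      = ((lam ^ 2 + 1) * lam * (e i * (e j * e k))) • oneF F e lam h2 he := by
  apply ov_inj
  have h := (dat e h2 he hl).assoc' (Xs e i) (Xs e j) (Xs e k)
  have h3 : ov F e lam h2 he (associator (XF F e lam h2 he i) (XF F e lam h2 he j) (XF F e lam h2 he k))
    = op e (((lam ^ 2 + 1) * lam) • (ES e h2 (Xs e i) * (ES e h2 (Xs e j) * ES e h2 (Xs e k)))) := congrArg (op e) h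
  rw [h3, map_smul, map_mul, map_mul, op_ES, op_ES, op_ES, op_Xs, op_Xs, op_Xs, EA_X e h2, EA_X e h2, EA_X e h2,
    map_smul, ov_one]
  simp only [smul_mul_assoc, one_mul, smul_smul]

end

end Pool.Agent.OM
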