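import Pool.Agent.OM.Hom
import Pool.Agent.OM.Pre

/-!
# The commutative model  (module OM/Com)

`F[x_i, t_i]` with the involution `x_i ↦ x_i + t_i`, `t_i ↦ t_i` (characteristic 2).
-/

set_option autoImplicit false
set_option linter.unusedSectionVars false

namespace Pool.Agent.OM

open FreeNonUnitalNonAssocAlgebra Pool.Agent.H.MP_41922c_al Pool.Agent.Smt Pool.Agent.OB

section

variable (F : Type*) [Field F] [CharP F 2]

/-- the polynomial ring -/
abbrev PC (F : Type*) [Field F] : Type _ := MvPolynomial (ℕ ⊕ ℕ) F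

/-- the involution -/
noncomputable def sC (F : Type*) [Field F] : PC F →ₐ[F] PC F :=
  MvPolynomial.aeval (Sum.elim (fun i => MvPolynomial.X (Sum.inl i) + MvPolynomial.X (Sum.inr i))
    (fun i => MvPolynomial.X (Sum.inr i)))

/-- the homomorphism -/
noncomputable def Pc (F : Type*) [Field F] : FB F →ₙₐ[F] PC F := lift F (fun s => MvPolynomial.X s)

theorem PC_two (p : PC F) : p + p = 0 := by
  have h : p + p = (2 : F) • p := by rw [two_smul]
  have h2 : (2 : F) = 0 := CharTwo.two_eq_zero
  rw [h, h2, zero_smul]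

theorem sC_sC (p : PC F) : sC F (sC F p) = p := by
  have h : (sC F).comp (sC F) = AlgHom.id F (PC F) := by
    refine MvPolynomial.algHom_ext fun s => ?_
    rcases s with i | i
    · simp only [AlgHom.comp_apply, sC, MvPolynomial.aeval_X, Sum.elim_inl, map_add, Sum.elim_inr, AlgHom.id_apply]
      rw [add_assoc, PC_two, add_zero]
    · simp only [AlgHom.comp_apply, sC, MvPolynomial.aeval_X, Sum.elim_inr, AlgHom.id_apply]
  exact DFunLike.congr_fun h p

theorem comC {A : Type*} [CommRing A] (a b : A) : com a b = 0 := by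
  rw [com, mul_comm, sub_self]

theorem ascC {A : Type*} [CommRing A] (a b c : A) : associator a b c = 0 := by
  rw [associator, mul_assoc, sub_self]

theorem centralC : IsCentralInv F (PC F) (sC F).toLinearMap where
  left x y := ascC _ _ _
  right x y := ascC _ _ _
  invol x := sC_sC F x
  mul x y := by
    show sC F (x * y) = sC F y * sC F x
    rw [map_mul, mul_comm]
  tr_comm x y := comC _ _
  tr_assoc x y z := ascC _ _ _
  nm_comm x y := comC _ _
  nm_assoc x y z := ascC _ _ _

theorem Pc_vanish [Infinite F] {f : FB F} (hf : evt F f = 0) : Pc F f = 0 := by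
  refine cent_vanish (centralC F) _ (fun i => ?_) hf
  show Pc F (of F (Sum.inr i)) = Pc F (of F (Sum.inl i)) + sC F (Pc F (of F (Sum.inl i)))
  rw [Pc, lift_of_apply, lift_of_apply, sC, MvPolynomial.aeval_X, Sum.elim_inl, ← add_assoc, PC_two, zero_add]

omit [CharP F 2] in
theorem Pc_eml (f : FA F) : Pc F (eml F f)
    = MvPolynomial.rename Sum.inl (lift F (fun i => (MvPolynomial.X i : MvPolynomial ℕ F)) f) := by
  let g : MvPolynomial ℕ F →ₙₐ[F] PC F := 
    { toFun := MvPolynomial.rename Sum.inl
      map_smul' := fun k p => map_smul (MvPolynomial.rename (R := F) Sum.inl) k p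
      map_zero' := map_zero _
      map_add' := map_add _
      map_mul' := map_mul _ }
  have h : (Pc F).comp (eml F) = g.comp (lift F (fun i => (MvPolynomial.X i : MvPolynomial ℕ F))) := by
    refine hom_ext _ fun i => ?_
    rw [NonUnitalAlgHom.comp_apply, NonUnitalAlgHom.comp_apply, eml, lift_of_apply, Pc, lift_of_apply, lift_of_apply]
    show _ = MvPolynomial.rename Sum.inl (MvPolynomial.X i)
    rw [MvPolynomial.rename_X]
  exact DFunLike.congr_fun h f

/-- the exponent of `t_K x_G` -/
noncomputable def exC (K G : Multiset ℕ) : (ℕ ⊕ ℕ) →₀ ℕ :=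
  Multiset.toFinsupp (G.map Sum.inl + K.map Sum.inr)

theorem exC_inj {K G K' G' : Multiset ℕ} (h : exC K G = exC K' G') : K = K' ∧ G = G' := by
  have h1 := Multiset.toFinsupp.injective h
  have h2 : ∀ (M : Multiset ℕ) (n : ℕ), Multiset.count (Sum.inr n : ℕ ⊕ ℕ) (M.map Sum.inl) = 0 := fun M n =>
    Multiset.count_eq_zero.2 (by simp)
  have h3 : ∀ (M : Multiset ℕ) (n : ℕ), Multiset.count (Sum.inl n : ℕ ⊕ ℕ) (M.map Sum.inr) = 0 := fun M n =>
    Multiset.count_eq_zero.2 (by simp)
  constructor
  · refine Multiset.ext.2 fun n => ?_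
    have h4 := congrArg (Multiset.count (Sum.inr n : ℕ ⊕ ℕ)) h1
    rwa [Multiset.count_add, Multiset.count_add, h2, h2, Multiset.count_map_eq_count' _ _ Sum.inr_injective,
      Multiset.count_map_eq_count' _ _ Sum.inr_injective, zero_add, zero_add] at h4
  · refine Multiset.ext.2 fun n => ?_
    have h4 := congrArg (Multiset.count (Sum.inl n : ℕ ⊕ ℕ)) h1
    rwa [Multiset.count_add, Multiset.count_add, h3, h3, Multiset.count_map_eq_count' _ _ Sum.inl_injective,
      Multiset.count_map_eq_count' _ _ Sum.inl_injective, add_zero, add_zero] at h4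

omit [CharP F 2] in
theorem coeff_Pc_eml (f : FA F) {K : Multiset ℕ} (hK : K ≠ 0) (G : Multiset ℕ) :
    MvPolynomial.coeff (exC K G) (Pc F (eml F f)) = 0 := by
  rw [Pc_eml, MvPolynomial.coeff_rename_eq_zero]
  intro u hu
  exfalso
  obtain ⟨k, hk⟩ := Multiset.exists_mem_of_ne_zero hK
  have h := DFunLike.congr_fun hu (Sum.inr k)
  rw [Finsupp.mapDomain_of_notMem_range _ _ (by simp), exC, Multiset.toFinsupp_apply, Multiset.count_add,
    Multiset.count_map_eq_count' _ _ Sum.inr_injective] at h
  have h2 := Multiset.count_pos.2 hk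
  omega

/-- independence of the elements `t_K x^G`, `K ≠ 0`, modulo the polynomials without `t` -/
theorem indepC [Infinite F] {ι : Type*} (c : ι →₀ F) (I : Set ι) (K G : ι → Multiset ℕ)
    (hK : ∀ i ∈ I, K i ≠ 0)
    (hinj : ∀ i ∈ I, ∀ j ∈ I, K i = K j → G i = G j → i = j) (P : ι → FB F)
    (hP : ∀ i ∈ I, Pc F (P i) = MvPolynomial.monomial (exC (K i) (G i)) 1)
    (hP0 : ∀ i, i ∉ I → Pc F (P i) = 0) (f : FA F)
    (h : evt F (c.sum fun i a => a • P i) = evt F (eml F f)) : ∀ i ∈ I, c i = 0 := by
  intro i0 hi0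
  have h1 : Pc F ((c.sum fun i a => a • P i) - eml F f) = 0 := Pc_vanish F (by rw [map_sub, h, sub_self])
  rw [map_sub, sub_eq_zero, Finsupp.sum, map_sum] at h1
  have h2 := congrArg (MvPolynomial.coeff (exC (K i0) (G i0))) h1
  rw [coeff_Pc_eml F f (hK i0 hi0), MvPolynomial.coeff_sum] at h2
  by_contra hc
  rw [Finset.sum_eq_single i0] at h2
  · rw [map_smul, MvPolynomial.coeff_smul, hP i0 hi0, MvPolynomial.coeff_monomial, if_pos rfl, smul_eq_mul,
      mul_one] at h2
    exact hc h2
  · intro i hi hne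
    rw [map_smul, MvPolynomial.coeff_smul]
    by_cases hiI : i ∈ I
    · rw [hP i hiI, MvPolynomial.coeff_monomial, if_neg, smul_zero]
      intro h3
      have h4 := exC_inj h3
      exact hne (hinj i hiI i0 hi0 h4.1 h4.2)
    · rw [hP0 i hiI, MvPolynomial.coeff_zero, smul_zero]
  · intro h10
    exact absurd (Finsupp.mem_support_iff.2 hc) h10

end

end Pool.Agent.OM
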