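import Pool.Agent.OM.Op
import Pool.Agent.OB.Kill

/-!
# The model in characteristic 2: the homomorphism  (module OM/Hom)

`Ps : FB F → MF F e lam ..`, `x_i ↦ X_i`, `t_i ↦ lam e_i`, vanishes on the relations (`Ps_vanish`).
-/

set_option autoImplicit false
set_option linter.unusedSectionVars false

namespace Pool.Agent.OM

open FreeNonUnitalNonAssocAlgebra Pool.Agent.H.MP_41922c_al Pool.Agent.Smt Pool.Agent.OB

attribute [local instance] iMAa iMAm iMAmul iMAr iMAt iMAc

/-- relations between trace polynomials hold in the algebras with central traces and norms -/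
theorem cent_vanish {F : Type*} [Field F] [Infinite F] {A : Type*} [NonUnitalNonAssocRing A] [Module F A]
    [IsScalarTower F A A] [SMulCommClass F A A] {σ : A →ₗ[F] A} (h : IsCentralInv F A σ)
    (ψ : FB F →ₙₐ[F] A)
    (hψ : ∀ i, ψ (of F (Sum.inr i)) = ψ (of F (Sum.inl i)) + σ (ψ (of F (Sum.inl i)))) {f : FB F}
    (hf : evt F f = 0) : ψ f = 0 := by
  have hinv : ∀ f, ψ (invT f) = σ (ψ f) := by
    intro f
    refine Words_ind (F := F) (α := ℕ ⊕ ℕ) (p := fun f => ψ (invT f) = σ (ψ f)) ?_ ?_ ?_ ?_ f
    · rw [Inv_T_zero, map_zero, map_zero]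
    · intro f g hf hg
      rw [invT_add, map_add, map_add, map_add, hf, hg]
    · intro k f hf
      rw [invT_smul, map_smul, map_smul, map_smul, hf]
    · intro w
      induction w with
      | ih1 s =>
        show ψ (invT (of F s)) = σ (ψ (of F s))
        rcases s with i | i
        · rw [invT_inl, map_sub, hψ, add_sub_cancel_left]
        · rw [invT_inr, hψ, map_add, h.invol, add_comm]
      | ih2 u v hu hv =>
        show ψ (invT (mo F u * mo F v)) = σ (ψ (mo F u * mo F v))
        rw [invT_mul, map_mul, map_mul, h.mul, hu, hv]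
  have hasc : ∀ a b c, ψ (associator a b c) = associator (ψ a) (ψ b) (ψ c) := fun a b c => by
    simp only [associator, map_sub, map_mul]
  have hcom : ∀ a b, ψ (com a b) = com (ψ a) (ψ b) := fun a b => by
    simp only [com, map_sub, map_mul]
  have hK : Laws (LinearMap.ker (ψ : FB F →ₗ[F] A)) invT :=
    { left := fun a f hf => by
        have hf' : ψ f = 0 := hf
        show ψ (a * f) = 0
        rw [map_mul, hf', mul_zero]
      right := fun a f hf => by
        have hf' : ψ f = 0 := hf
        show ψ (f * a) = 0
        rw [map_mul, hf', zero_mul]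
      altL := fun u v => by
        show ψ (associator u u v) = 0
        rw [hasc, h.left]
      altR := fun u v => by
        show ψ (associator v u u) = 0
        rw [hasc, h.right]
      trC := fun u v => by
        show ψ (com (u + invT u) v) = 0
        rw [hcom, map_add, hinv, h.tr_comm]
      trA := fun u v w => by
        show ψ (associator (u + invT u) v w) = 0
        rw [hasc, map_add, hinv, h.tr_assoc]
      nmC := fun u v => by
        show ψ (com (u * invT u) v) = 0
        rw [hcom, map_mul, hinv, h.nm_comm]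
      nmA := fun u v w => by
        show ψ (associator (u * invT u) v w) = 0
        rw [hasc, map_mul, hinv, h.nm_assoc] }
  exact killT hK hf

section

variable (F : Type*) [Field F] {R : Type*} [CommRing R] [Algebra F R] (e : ℕ → R) (lam : R)
  (h2 : (2 : R) = 0) (he : ∀ i, e i * e i = 0)

/-- the model over `F` -/
@[nolint unusedArguments]
def MF (_F : Type*) {R : Type*} [CommRing R] (e : ℕ → R) (lam : R) (h2 : (2 : R) = 0)
    (he : ∀ i, e i * e i = 0) : Type _ := MA (ES e h2) (E2S e h2 he) lam

noncomputable instance : NonUnitalNonAssocRing (MF F e lam h2 he) :=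
  inferInstanceAs (NonUnitalNonAssocRing (MA (ES e h2) (E2S e h2 he) lam))

noncomputable instance : Module R (MF F e lam h2 he) :=
  inferInstanceAs (Module R (MA (ES e h2) (E2S e h2 he) lam))

noncomputable instance : Module F (MF F e lam h2 he) := Module.compHom _ (algebraMap F R)

theorem MF_smul (k : F) (T : MF F e lam h2 he) : k • T = algebraMap F R k • T := rfl

instance : IsScalarTower R (MF F e lam h2 he) (MF F e lam h2 he) :=
  inferInstanceAs (IsScalarTower R (MA (ES e h2) (E2S e h2 he) lam) (MA (ES e h2) (E2S e h2 he) lam))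

instance : SMulCommClass R (MF F e lam h2 he) (MF F e lam h2 he) :=
  inferInstanceAs (SMulCommClass R (MA (ES e h2) (E2S e h2 he) lam) (MA (ES e h2) (E2S e h2 he) lam))

instance : IsScalarTower F (MF F e lam h2 he) (MF F e lam h2 he) :=
  ⟨fun k S T => by rw [MF_smul, MF_smul, smul_assoc]⟩

instance : SMulCommClass F (MF F e lam h2 he) (MF F e lam h2 he) :=
  ⟨fun k S T => by rw [MF_smul, MF_smul, smul_comm]⟩

/-- the operator of an element -/
noncomputable def ov : MF F e lam h2 he →ₗ[R] Module.End R (MvPolynomial ℕ R) := (op e).toLinearMap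

theorem ov_inj : Function.Injective (ov F e lam h2 he) := op_inj e

theorem ov_mem (T : MF F e lam h2 he) : ov F e lam h2 he T ∈ SA e := op_mem e T

theorem ov_mul (S T : MF F e lam h2 he) : ov F e lam h2 he (S * T) = ov F e lam h2 he S * ov F e lam h2 he T
    + ((lam ^ 2 + 1) * lam) • (E2A e (ov F e lam h2 he S) * EA e (ov F e lam h2 he T)) := rfl

/-- the involution -/
noncomputable def sig : MF F e lam h2 he →ₗ[F] MF F e lam h2 he where
  toFun T := bar' (ES e h2) (E2S e h2 he) lam T
  map_add' S T := map_add (bar' (ES e h2) (E2S e h2 he) lam) _ _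
  map_smul' k T := map_smul (bar' (ES e h2) (E2S e h2 he) lam) (algebraMap F R k) _

theorem centralF (hl : lam ^ 4 = 1) : IsCentralInv F (MF F e lam h2 he) (sig F e lam h2 he) :=
  let h := (dat e h2 he hl).central
  { left := h.left
    right := h.right
    invol := h.invol
    mul := h.mul
    tr_comm := h.tr_comm
    tr_assoc := h.tr_assoc
    nm_comm := h.nm_comm
    nm_assoc := h.nm_assoc }

/-- the generators -/
noncomputable def XF (i : ℕ) : MF F e lam h2 he := Xs e i

theorem ov_XF (i : ℕ) : ov F e lam h2 he (XF F e lam h2 he i) = Xh e i := rfl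

/-- the unit -/
noncomputable def oneF : MF F e lam h2 he := (1 : SB e)

theorem ov_one : ov F e lam h2 he (oneF F e lam h2 he) = 1 := rfl

/-- the homomorphism -/
noncomputable def Ps : FB F →ₙₐ[F] MF F e lam h2 he :=
  lift F (Sum.elim (fun i => XF F e lam h2 he i) (fun i => (lam * e i) • oneF F e lam h2 he))

theorem Ps_inl (i : ℕ) : Ps F e lam h2 he (of F (Sum.inl i)) = XF F e lam h2 he i := by
  unfold Ps
  rw [lift_of_apply]
  rfl

theorem Ps_inr (i : ℕ) : Ps F e lam h2 he (of F (Sum.inr i)) = (lam * e i) • oneF F e lam h2 he := by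
  unfold Ps
  rw [lift_of_apply]
  rfl

theorem ov_sig (T : MF F e lam h2 he) : ov F e lam h2 he (sig F e lam h2 he T) = ov F e lam h2 he T
    + lam • EA e (ov F e lam h2 he T) + (lam ^ 2 + 1) • E2A e (ov F e lam h2 he T) := rfl

theorem Ps_vanish [Infinite F] (hl : lam ^ 4 = 1) {f : FB F} (hf : evt F f = 0) : Ps F e lam h2 he f = 0 := by
  refine cent_vanish (centralF F e lam h2 he hl) _ (fun i => ?_) hf
  rw [Ps_inl, Ps_inr]
  apply ov_inj
  rw [map_add, ov_sig, ov_XF, E2A_X e h2 he, EA_X e h2, smul_zero, add_zero, map_smul, ov_one, ← add_assoc,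
    two_end h2, zero_add, smul_smul]

end

end Pool.Agent.OM
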