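import Pool.Agent.OM.Abs

/-!
# The model in characteristic 2: operators  (module OM/Op)

`R` is a commutative ring of characteristic 2 with elements `e i`, `e i ^ 2 = 0`. On `B = R[x_0, x_1, ..]` we have the operators
`mX i` (multiplication by `x_i`), the derivations `EB : x_i ↦ e_i`, `PB i : x_j ↦ e_j` for `j < i`, `x_j ↦ 0` for `i ≤ j`, and
`E2B f`, the coefficient of `t ^ 2` in `f(x + t e)`. `SA e` is the algebra generated by the operators
`Xh i = mX i + e_i PB i`.
-/

set_option autoImplicit false
set_option linter.unusedSectionVars false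

namespace Pool.Agent.OM

open MvPolynomial

variable {R : Type*} [CommRing R]

section

/-- multiplication by `x_i` -/
noncomputable def mX (i : ℕ) : Module.End R (MvPolynomial ℕ R) := LinearMap.mulLeft R (X i)

theorem mX_apply (i : ℕ) (f : MvPolynomial ℕ R) : mX i f = X i * f := rfl

/-- an operator which commutes with the multiplications and kills `1` is zero -/
theorem end_zero (T : Module.End R (MvPolynomial ℕ R)) (h1 : T 1 = 0) (h : ∀ j, T * mX j = mX j * T) :
    T = 0 := by
  refine LinearMap.ext fun p => ?_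
  rw [LinearMap.zero_apply]
  induction p using MvPolynomial.induction_on with
  | C a =>
    have h2 : (C a : MvPolynomial ℕ R) = a • 1 := by rw [smul_eq_C_mul, mul_one]
    rw [h2, map_smul, h1, smul_zero]
  | add p q hp hq => rw [map_add, hp, hq, add_zero]
  | mul_X p j hp =>
    have h2 := congrArg (fun U : Module.End R (MvPolynomial ℕ R) => U p) (h j)
    have h3 : T (X j * p) = X j * T p := h2
    rw [mul_comm p, h3, hp, mul_zero]

/-- a derivation in terms of the commutators -/
theorem der_mX (D : Derivation R (MvPolynomial ℕ R) (MvPolynomial ℕ R)) (j : ℕ) (r : R)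
    (h : D (X j) = C r) :
    (D : Module.End R (MvPolynomial ℕ R)) * mX j = mX j * (D : Module.End R (MvPolynomial ℕ R)) + r • 1 := by
  refine LinearMap.ext fun p => ?_
  show D (X j * p) = X j * D p + r • p
  rw [D.leibniz, h, smul_eq_mul, smul_eq_mul, smul_eq_C_mul, mul_comm p]

end

section

variable (e : ℕ → R)

/-- the derivation `x_i ↦ e_i` -/
noncomputable def EB : Module.End R (MvPolynomial ℕ R) :=
  (mkDerivation R (fun i => (C (e i) : MvPolynomial ℕ R)) :
    Derivation R (MvPolynomial ℕ R) (MvPolynomial ℕ R))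

/-- the derivation `x_j ↦ e_j`, `j < i` -/
noncomputable def PB (i : ℕ) : Module.End R (MvPolynomial ℕ R) :=
  (mkDerivation R (fun j => (C (if j < i then e j else 0) : MvPolynomial ℕ R)) :
    Derivation R (MvPolynomial ℕ R) (MvPolynomial ℕ R))

/-- `f ↦ f(x + t e)` -/
noncomputable def Tay : MvPolynomial ℕ R →ₐ[R] Polynomial (MvPolynomial ℕ R) :=
  aeval (fun i => Polynomial.C (X i) + Polynomial.C (C (e i)) * Polynomial.X)

/-- the coefficient of `t ^ 2` in `f(x + t e)` -/
noncomputable def E2B : Module.End R (MvPolynomial ℕ R) :=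
  ((Polynomial.lcoeff (MvPolynomial ℕ R) 2).restrictScalars R) ∘ₗ (Tay e).toLinearMap

theorem E2B_apply (f : MvPolynomial ℕ R) : E2B e f = (Tay e f).coeff 2 := rfl

theorem EB_mX (j : ℕ) : EB e * mX j = mX j * EB e + e j • 1 :=
  der_mX _ j (e j) (mkDerivation_X _ _ _)

theorem PB_mX (i j : ℕ) : PB e i * mX j = mX j * PB e i + (if j < i then e j else 0) • 1 :=
  der_mX _ j _ (mkDerivation_X _ _ _)

theorem EB_one : EB e 1 = 0 := (mkDerivation R _ : Derivation R (MvPolynomial ℕ R) (MvPolynomial ℕ R)).map_one_eq_zero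

theorem PB_one (i : ℕ) : PB e i 1 = 0 :=
  (mkDerivation R _ : Derivation R (MvPolynomial ℕ R) (MvPolynomial ℕ R)).map_one_eq_zero

theorem Tay_X (j : ℕ) : Tay e (X j) = Polynomial.C (X j) + Polynomial.C (C (e j)) * Polynomial.X :=
  aeval_X _ _

theorem Tay_coeff_mul (f : MvPolynomial ℕ R) (j n : ℕ) :
    (Tay e (X j * f)).coeff (n + 1) = X j * (Tay e f).coeff (n + 1) + e j • (Tay e f).coeff n := by
  rw [map_mul, Tay_X, add_mul, Polynomial.coeff_add, Polynomial.coeff_C_mul, mul_assoc,
    Polynomial.coeff_C_mul, Polynomial.coeff_X_mul, smul_eq_C_mul]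

theorem Tay_coeff_zero (f : MvPolynomial ℕ R) : (Tay e f).coeff 0 = f := by
  induction f using MvPolynomial.induction_on with
  | C a => 
    show (Tay e (algebraMap R _ a)).coeff 0 = _
    rw [AlgHom.commutes]
    show (Polynomial.C (C a)).coeff 0 = _
    rw [Polynomial.coeff_C_zero]
  | add p q hp hq => rw [map_add, Polynomial.coeff_add, hp, hq]
  | mul_X p j hp =>
    rw [map_mul, Tay_X, Polynomial.mul_coeff_zero, hp]
    simp

theorem Tay_coeff_one (f : MvPolynomial ℕ R) : (Tay e f).coeff 1 = EB e f := by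
  induction f using MvPolynomial.induction_on with
  | C a =>
    have h2 : (C a : MvPolynomial ℕ R) = a • 1 := by rw [smul_eq_C_mul, mul_one]
    rw [h2, map_smul, map_smul, EB_one, map_one, Polynomial.coeff_smul, Polynomial.coeff_one]
    simp
  | add p q hp hq => rw [map_add, Polynomial.coeff_add, hp, hq, map_add]
  | mul_X p j hp =>
    have h2 := congrArg (fun U : Module.End R (MvPolynomial ℕ R) => U p) (EB_mX e j)
    have h3 : EB e (X j * p) = X j * EB e p + e j • p := h2
    rw [mul_comm p, Tay_coeff_mul, Tay_coeff_zero, hp, h3]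

theorem E2B_mX (j : ℕ) : E2B e * mX j = mX j * E2B e + e j • EB e := by
  refine LinearMap.ext fun p => ?_
  have h := Tay_coeff_mul e p j 1
  rw [Tay_coeff_one] at h
  rw [Module.End.mul_apply, LinearMap.add_apply, Module.End.mul_apply, LinearMap.smul_apply, mX_apply, mX_apply,
    E2B_apply, E2B_apply]
  exact h

theorem E2B_one : E2B e 1 = 0 := by
  rw [E2B_apply, map_one, Polynomial.coeff_one]
  rfl

variable (h2 : (2 : R) = 0)
include h2

theorem two_end (T : Module.End R (MvPolynomial ℕ R)) : T + T = 0 := by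
  have h : T + T = (2 : R) • T := by rw [two_smul]
  rw [h, h2, zero_smul]

theorem EB_sq : EB e * EB e = 0 := by
  refine end_zero _ ?_ fun j => ?_
  · rw [Module.End.mul_apply, EB_one, map_zero]
  · rw [mul_assoc, EB_mX, mul_add, ← mul_assoc, EB_mX, add_mul, mul_smul_comm, smul_mul_assoc, one_mul, mul_one,
      add_assoc, two_end h2, add_zero, mul_assoc]

omit h2

theorem EB_PB (i : ℕ) : EB e * PB e i = PB e i * EB e := by
  rw [← sub_eq_zero]
  refine end_zero _ ?_ fun j => ?_
  · rw [LinearMap.sub_apply, Module.End.mul_apply, Module.End.mul_apply, EB_one, PB_one, map_zero, map_zero, sub_zero]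
  · rw [sub_mul, mul_assoc, PB_mX, mul_assoc (PB e i), EB_mX, mul_add, mul_add, ← mul_assoc, EB_mX, ← mul_assoc,
      PB_mX, mul_sub]
    simp only [add_mul, mul_smul_comm, smul_mul_assoc, mul_one, one_mul, mul_assoc]
    abel

theorem PB_PB (i k : ℕ) : PB e k * PB e i = PB e i * PB e k := by
  rw [← sub_eq_zero]
  refine end_zero _ ?_ fun j => ?_
  · rw [LinearMap.sub_apply, Module.End.mul_apply, Module.End.mul_apply, PB_one, PB_one, map_zero, map_zero, sub_zero]
  · rw [sub_mul, mul_assoc, PB_mX, mul_assoc (PB e i), PB_mX, mul_add, mul_add, ← mul_assoc, PB_mX, ← mul_assoc,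
      PB_mX, mul_sub]
    simp only [add_mul, mul_smul_comm, smul_mul_assoc, mul_one, one_mul, mul_assoc]
    abel

theorem E2B_EB : E2B e * EB e = EB e * E2B e := by
  rw [← sub_eq_zero]
  refine end_zero _ ?_ fun j => ?_
  · rw [LinearMap.sub_apply, Module.End.mul_apply, Module.End.mul_apply, EB_one, E2B_one, map_zero, map_zero, sub_zero]
  · rw [sub_mul, mul_assoc, EB_mX, mul_assoc (EB e), E2B_mX, mul_add, mul_add, ← mul_assoc, E2B_mX, ← mul_assoc,
      EB_mX, mul_sub]
    simp only [add_mul, mul_smul_comm, smul_mul_assoc, mul_one, one_mul, mul_assoc]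
    abel

theorem E2B_PB (i : ℕ) : E2B e * PB e i = PB e i * E2B e := by
  rw [← sub_eq_zero]
  refine end_zero _ ?_ fun j => ?_
  · rw [LinearMap.sub_apply, Module.End.mul_apply, Module.End.mul_apply, PB_one, E2B_one, map_zero, map_zero, sub_zero]
  · rw [sub_mul, mul_assoc, PB_mX, mul_assoc (PB e i), E2B_mX, mul_add, mul_add, ← mul_assoc, E2B_mX, ← mul_assoc,
      PB_mX, mul_sub]
    simp only [add_mul, mul_smul_comm, smul_mul_assoc, mul_one, one_mul, mul_assoc, EB_PB]
    abel

end

section

variable (e : ℕ → R)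

/-- the generators -/
noncomputable def Xh (i : ℕ) : Module.End R (MvPolynomial ℕ R) := mX i + e i • PB e i

/-- `T ↦ EB T + T EB` -/
noncomputable def EA : Module.End R (MvPolynomial ℕ R) →ₗ[R] Module.End R (MvPolynomial ℕ R) :=
  LinearMap.mulLeft R (EB e) + LinearMap.mulRight R (EB e)

/-- `T ↦ E2B T + EB T EB + T E2B` -/
noncomputable def E2A : Module.End R (MvPolynomial ℕ R) →ₗ[R] Module.End R (MvPolynomial ℕ R) :=
  LinearMap.mulLeft R (E2B e) + LinearMap.mulLeft R (EB e) ∘ₗ LinearMap.mulRight R (EB e)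
    + LinearMap.mulRight R (E2B e)

theorem EA_apply (T : Module.End R (MvPolynomial ℕ R)) : EA e T = EB e * T + T * EB e := rfl

theorem E2A_apply (T : Module.End R (MvPolynomial ℕ R)) :
    E2A e T = E2B e * T + EB e * (T * EB e) + T * E2B e := rfl

variable (h2 : (2 : R) = 0)
include h2

theorem EA_mul (T U : Module.End R (MvPolynomial ℕ R)) : EA e (T * U) = EA e T * U + T * EA e U := by
  have h := two_end h2 (T * (EB e * U))
  rw [EA_apply, EA_apply, EA_apply, add_mul, mul_add]
  simp only [mul_assoc]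
  rw [add_assoc, ← add_assoc (T * (EB e * U)), h, zero_add]

theorem E2A_mul (T U : Module.End R (MvPolynomial ℕ R)) :
    E2A e (T * U) = E2A e T * U + EA e T * EA e U + T * E2A e U := by
  have h3 := two_end h2 (T * (E2B e * U))
  have h4 := two_end h2 (T * (EB e * (U * EB e)))
  have h5 := two_end h2 (EB e * (T * (EB e * U)))
  have h6 : EB e * (EB e * U) = 0 := by rw [← mul_assoc, EB_sq e h2, zero_mul]
  rw [EA_apply, EA_apply, E2A_apply, E2A_apply, E2A_apply]
  simp only [mul_assoc, add_mul, mul_add, h6, mul_zero]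
  calc _ = E2B e * (T * U) + EB e * (T * (U * EB e)) + T * (U * E2B e)
      + (T * (E2B e * U) + T * (E2B e * U)) + (T * (EB e * (U * EB e)) + T * (EB e * (U * EB e)))
      + (EB e * (T * (EB e * U)) + EB e * (T * (EB e * U))) := by
        rw [h3, h4, h5, add_zero, add_zero, add_zero]
    _ = _ := by abel

theorem EA_EA (T : Module.End R (MvPolynomial ℕ R)) : EA e (EA e T) = 0 := by
  have h5 := two_end h2 (EB e * (T * EB e))
  have h6 : EB e * (EB e * T) = 0 := by rw [← mul_assoc, EB_sq e h2, zero_mul]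
  rw [EA_apply, EA_apply]
  simp only [mul_assoc, add_mul, mul_add, h6, mul_zero, EB_sq e h2, zero_add, add_zero]
  exact h5

theorem EA_E2A (T : Module.End R (MvPolynomial ℕ R)) : EA e (E2A e T) = E2A e (EA e T) := by
  have h6 : EB e * (EB e * T) = 0 := by rw [← mul_assoc, EB_sq e h2, zero_mul]
  have h7 : ∀ U, EB e * (EB e * U) = 0 := fun U => by rw [← mul_assoc, EB_sq e h2, zero_mul]
  have h8 := E2B_EB e
  have h9 : E2B e * (EB e * T) = EB e * (E2B e * T) := by rw [← mul_assoc, h8, mul_assoc]
  rw [EA_apply, EA_apply, E2A_apply, E2A_apply]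
  simp only [mul_assoc, add_mul, mul_add, h7, mul_zero, EB_sq e h2, h8, h9, zero_add, add_zero]
  abel

theorem EA_one (r : R) : EA e (r • 1) = 0 := by
  rw [EA_apply, mul_smul_comm, smul_mul_assoc, one_mul, mul_one, two_end h2]

theorem E2A_one (r : R) : E2A e (r • 1) = 0 := by
  rw [E2A_apply]
  simp only [mul_smul_comm, smul_mul_assoc, one_mul, mul_one, EB_sq e h2, smul_zero, add_zero]
  rw [two_end h2]

theorem EA_X (i : ℕ) : EA e (Xh e i) = e i • 1 := by
  have h3 := two_end h2 (mX (R := R) i * EB e)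
  have h4 := two_end h2 (e i • (PB e i * EB e))
  rw [EA_apply, Xh, mul_add, add_mul, EB_mX, mul_smul_comm, smul_mul_assoc, EB_PB]
  calc _ = (mX i * EB e + mX i * EB e) + e i • 1 + (e i • (PB e i * EB e) + e i • (PB e i * EB e)) := by abel
    _ = _ := by rw [h3, h4, zero_add, add_zero]

variable (he : ∀ i, e i * e i = 0)
include he

theorem E2A_X (i : ℕ) : E2A e (Xh e i) = 0 := by
  have h3 := two_end h2 (mX (R := R) i * E2B e)
  have h4 := two_end h2 (e i • (PB e i * E2B e))
  have h5 := two_end h2 (e i • EB e)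
  have h6 : EB e * (mX i * EB e) = e i • EB e := by
    rw [← mul_assoc, EB_mX, add_mul, mul_assoc, EB_sq e h2, mul_zero, zero_add, smul_mul_assoc, one_mul]
  have h7 : EB e * (PB e i * EB e) = 0 := by
    rw [← mul_assoc, EB_PB, mul_assoc, EB_sq e h2, mul_zero]
  rw [E2A_apply, Xh, mul_add, add_mul, add_mul, mul_add, E2B_mX, mul_smul_comm, smul_mul_assoc, smul_mul_assoc,
    mul_smul_comm, E2B_PB, h6, h7, smul_zero, add_zero]
  calc _ = (mX i * E2B e + mX i * E2B e) + (e i • EB e + e i • EB e)
      + (e i • (PB e i * E2B e) + e i • (PB e i * E2B e)) := by abel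
    _ = _ := by rw [h3, h4, h5, zero_add, add_zero]

/-- `X_i X_j + X_j X_i = e_i e_j` -/
theorem X_X (i j : ℕ) : Xh e i * Xh e j = Xh e j * Xh e i + (e i * e j) • 1 := by
  have h3 : e i * (if j < i then e j else 0) = e j * (if i < j then e i else 0) + e i * e j := by
    rcases lt_trichotomy i j with h | h | h
    · rw [if_neg h.asymm, if_pos h]
      linear_combination (-e i * e j) * h2
    · rw [h]
      simp [he]
    · rw [if_pos h, if_neg h.asymm]
      ring
  have h4 : (mX i * mX j : Module.End R (MvPolynomial ℕ R)) = mX j * mX i := by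
    refine LinearMap.ext fun p => ?_
    show X i * (X j * p) = X j * (X i * p)
    ring
  have h5 := PB_PB e j i
  rw [Xh, Xh]
  simp only [add_mul, mul_add, smul_mul_assoc, mul_smul_comm, smul_smul, PB_mX, h4, smul_add]
  rw [h3, h5]
  module

end

section

variable (e : ℕ → R)

/-- the algebra generated by the operators `Xh i` -/
noncomputable def SA : Subalgebra R (Module.End R (MvPolynomial ℕ R)) := Algebra.adjoin R (Set.range (Xh e))

theorem Xh_mem (i : ℕ) : Xh e i ∈ SA e := Algebra.subset_adjoin ⟨i, rfl⟩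

variable (h2 : (2 : R) = 0) (he : ∀ i, e i * e i = 0)
include h2

theorem EA_mem {T : Module.End R (MvPolynomial ℕ R)} (hT : T ∈ SA e) : EA e T ∈ SA e := by
  induction hT using Algebra.adjoin_induction with
  | mem T hT =>
    obtain ⟨i, rfl⟩ := hT
    rw [EA_X e h2]
    exact (SA e).smul_mem (SA e).one_mem _
  | algebraMap r =>
    rw [Algebra.algebraMap_eq_smul_one, EA_one e h2]
    exact (SA e).zero_mem
  | add T U _ _ hT hU =>
    rw [map_add]
    exact (SA e).add_mem hT hU
  | mul T U h1 h3 hT hU =>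
    rw [EA_mul e h2]
    exact (SA e).add_mem ((SA e).mul_mem hT h3) ((SA e).mul_mem h1 hU)

include he

theorem E2A_mem {T : Module.End R (MvPolynomial ℕ R)} (hT : T ∈ SA e) : E2A e T ∈ SA e := by
  induction hT using Algebra.adjoin_induction with
  | mem T hT =>
    obtain ⟨i, rfl⟩ := hT
    rw [E2A_X e h2 he]
    exact (SA e).zero_mem
  | algebraMap r =>
    rw [Algebra.algebraMap_eq_smul_one, E2A_one e h2]
    exact (SA e).zero_mem
  | add T U _ _ hT hU =>
    rw [map_add]
    exact (SA e).add_mem hT hU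
  | mul T U h1 h3 hT hU =>
    rw [E2A_mul e h2]
    exact (SA e).add_mem ((SA e).add_mem ((SA e).mul_mem hT h3) ((SA e).mul_mem (EA_mem e h2 h1) (EA_mem e h2 h3)))
      ((SA e).mul_mem h1 hU)

/-- `X_k T + T X_k = e_k EA T` -/
theorem X_cm (k : ℕ) {T : Module.End R (MvPolynomial ℕ R)} (hT : T ∈ SA e) :
    Xh e k * T = T * Xh e k + e k • EA e T := by
  induction hT using Algebra.adjoin_induction with
  | mem T hT =>
    obtain ⟨i, rfl⟩ := hT
    rw [EA_X e h2, X_X e h2 he, smul_smul]
  | algebraMap r =>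
    rw [Algebra.algebraMap_eq_smul_one, EA_one e h2, mul_smul_comm, smul_mul_assoc, one_mul, mul_one, smul_zero,
      add_zero]
  | add T U _ _ hT hU =>
    rw [map_add, mul_add, add_mul, hT, hU, smul_add]
    abel
  | mul T U h1 h3 hT hU =>
    rw [EA_mul e h2, ← mul_assoc, hT, add_mul, mul_assoc T, hU, mul_add, smul_add, smul_mul_assoc, mul_smul_comm,
      mul_assoc]
    abel

/-- `EA T` commutes with the elements of `SA` -/
theorem EA_cm {T U : Module.End R (MvPolynomial ℕ R)} (hT : T ∈ SA e) (hU : U ∈ SA e) :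
    EA e T * U = U * EA e T := by
  induction hU using Algebra.adjoin_induction with
  | mem U hU =>
    obtain ⟨i, rfl⟩ := hU
    rw [X_cm e h2 he i (EA_mem e h2 hT), EA_EA e h2, smul_zero, add_zero]
  | algebraMap r =>
    rw [Algebra.algebraMap_eq_smul_one, mul_smul_comm, smul_mul_assoc, one_mul, mul_one]
  | add U V _ _ hU hV => rw [mul_add, add_mul, hU, hV]
  | mul U V _ _ hU hV => rw [← mul_assoc, hU, mul_assoc, hV, mul_assoc]

theorem SA_cm {T U : Module.End R (MvPolynomial ℕ R)} (hT : T ∈ SA e) (hU : U ∈ SA e) :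
    T * U = U * T + EA e T * EA e U := by
  induction hT using Algebra.adjoin_induction with
  | mem T hT =>
    obtain ⟨i, rfl⟩ := hT
    rw [X_cm e h2 he i hU, EA_X e h2, smul_mul_assoc, one_mul]
  | algebraMap r =>
    rw [Algebra.algebraMap_eq_smul_one, EA_one e h2, mul_smul_comm, smul_mul_assoc, one_mul, mul_one, zero_mul,
      add_zero]
  | add T V _ _ hT hV =>
    rw [map_add, mul_add, add_mul, hT, hV, add_mul]
    abel
  | mul T V h1 h3 hT hV =>
    rw [EA_mul e h2, mul_assoc, hV, mul_add, ← mul_assoc, hT, add_mul, add_mul, mul_assoc T (EA e V),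
      mul_assoc (EA e T), mul_assoc (EA e T), EA_cm e h2 he hU h3, mul_assoc]
    abel

theorem SA_sq {T : Module.End R (MvPolynomial ℕ R)} (hT : T ∈ SA e) : EA e T * EA e T = 0 := by
  induction hT using Algebra.adjoin_induction with
  | mem T hT =>
    obtain ⟨i, rfl⟩ := hT
    rw [EA_X e h2, mul_smul_comm, smul_mul_assoc, smul_smul, he, zero_smul]
  | algebraMap r => rw [Algebra.algebraMap_eq_smul_one, EA_one e h2, zero_mul]
  | add T U h1 h3 hT hU =>
    rw [map_add, mul_add, add_mul, add_mul, hT, hU, EA_cm e h2 he h1 (EA_mem e h2 h3), zero_add, add_zero,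
      two_end h2]
  | mul T U h1 h3 hT hU =>
    have a1 : EA e T * EA e U = EA e U * EA e T := EA_cm e h2 he h1 (EA_mem e h2 h3)
    have a2 : EA e T * U = U * EA e T := EA_cm e h2 he h1 h3
    have a3 : EA e U * T = T * EA e U := EA_cm e h2 he h3 h1
    have a4 : EA e U * U = U * EA e U := EA_cm e h2 he h3 h3
    have a5 : EA e T * T = T * EA e T := EA_cm e h2 he h1 h1
    have a6 := SA_cm e h2 he h3 h1
    rw [EA_mul e h2]
    generalize EA e T = A at *
    generalize EA e U = B at *
    have t1 : A * U * (A * U) = 0 := by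
      rw [← mul_assoc, mul_assoc A U, ← a2, ← mul_assoc, hT, zero_mul, zero_mul]
    have t4 : T * B * (T * B) = 0 := by
      rw [← mul_assoc, mul_assoc T B, a3, mul_assoc, mul_assoc T B, hU, mul_zero, mul_zero]
    have t2 : A * U * (T * B) = A * B * (T * U) + A * B * (B * A) := by
      rw [← mul_add, ← a6, ← a3, ← mul_assoc, mul_assoc A U, ← a4, ← mul_assoc, mul_assoc]
    have t3 : T * B * (A * U) = A * B * (T * U) := by
      rw [← a3, ← mul_assoc, mul_assoc B T, ← a5, ← mul_assoc, ← a1, mul_assoc]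
    have t5 : A * B * (B * A) = 0 := by
      rw [← mul_assoc, mul_assoc A B, hU, mul_zero, zero_mul]
    rw [add_mul, mul_add, mul_add, t1, t2, t3, t4, t5]
    simp only [zero_add, add_zero]
    exact two_end h2 _

end

section

variable (e : ℕ → R)

/-- the algebra generated by the operators `Xh i` -/
def SB : Type _ := ↥(SA e)

noncomputable instance : Ring (SB e) := inferInstanceAs (Ring (SA e))

noncomputable instance : Algebra R (SB e) := inferInstanceAs (Algebra R (SA e))

/-- the operator -/
noncomputable def op : SB e →ₐ[R] Module.End R (MvPolynomial ℕ R) := (SA e).val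

theorem op_inj : Function.Injective (op e) := Subtype.val_injective

theorem op_mem (T : SB e) : op e T ∈ SA e := Subtype.property (p := fun x => x ∈ SA e) T

/-- the generators -/
noncomputable def Xs (i : ℕ) : SB e := (⟨Xh e i, Xh_mem e i⟩ : SA e)

theorem op_Xs (i : ℕ) : op e (Xs e i) = Xh e i := rfl

variable (h2 : (2 : R) = 0) (he : ∀ i, e i * e i = 0)

/-- the restriction of `EA` -/
noncomputable def ES (h2 : (2 : R) = 0) : SB e →ₗ[R] SB e where
  toFun T := (⟨EA e (op e T), EA_mem e h2 (op_mem e T)⟩ : SA e)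
  map_add' T U := by
    apply op_inj
    show EA e (op e (T + U)) = EA e (op e T) + EA e (op e U)
    rw [map_add, map_add]
  map_smul' r T := by
    apply op_inj
    show EA e (op e (r • T)) = r • EA e (op e T)
    rw [map_smul, map_smul]

/-- the restriction of `E2A` -/
noncomputable def E2S (h2 : (2 : R) = 0) (he : ∀ i, e i * e i = 0) : SB e →ₗ[R] SB e where
  toFun T := (⟨E2A e (op e T), E2A_mem e h2 he (op_mem e T)⟩ : SA e)
  map_add' T U := by
    apply op_inj
    show E2A e (op e (T + U)) = E2A e (op e T) + E2A e (op e U)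
    rw [map_add, map_add]
  map_smul' r T := by
    apply op_inj
    show E2A e (op e (r • T)) = r • E2A e (op e T)
    rw [map_smul, map_smul]

theorem op_ES (T : SB e) : op e (ES e h2 T) = EA e (op e T) := rfl

theorem op_E2S (T : SB e) : op e (E2S e h2 he T) = E2A e (op e T) := rfl

theorem dat {lam : R} (hl : lam ^ 4 = 1) : Dat (ES e h2) (E2S e h2 he) lam where
  t2 := h2
  l4 := hl
  e1 T U := by
    apply op_inj
    rw [op_ES, map_mul, EA_mul e h2, map_add, map_mul, map_mul, op_ES, op_ES]
  e2 T U := by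
    apply op_inj
    rw [op_E2S, map_mul, E2A_mul e h2, map_add, map_add, map_mul, map_mul, map_mul, op_ES, op_ES, op_E2S, op_E2S]
  ee T := by
    apply op_inj
    rw [op_ES, op_ES, EA_EA e h2, map_zero]
  e12 T := by
    apply op_inj
    rw [op_ES, op_E2S, op_E2S, op_ES, EA_E2A e h2]
  cm T U := by
    apply op_inj
    rw [map_add, map_mul, map_mul, map_mul, op_ES, op_ES]
    exact SA_cm e h2 he (op_mem e T) (op_mem e U)
  sq T := by
    apply op_inj
    rw [map_mul, op_ES, map_zero]
    exact SA_sq e h2 he (op_mem e T)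

end

end Pool.Agent.OM
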