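import Pool.Agent.OM.Pre

/-!
# The model in characteristic 2: the ring of coefficients, independence  (module OM/Ring)

`Q0 F = F[eta, e_0, e_1, ..] / (squares of the variables)` (`eta` is the variable `none`), `R0 F = Q0 F [lam]`,
`lam ^ 2 = 1 + eta lam`.
-/

set_option autoImplicit false
set_option linter.unusedSectionVars false

namespace Pool.Agent.OM

open FreeNonUnitalNonAssocAlgebra Pool.Agent.H.MP_41922c_al Pool.Agent.Smt Pool.Agent.OB

section

variable (F : Type*) [Field F]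

/-- the ideal of the squares -/
noncomputable def J2 : Ideal (MvPolynomial (Option ℕ) F) :=
  Ideal.span ((fun s => MvPolynomial.monomial s (1 : F)) '' Set.range (fun o : Option ℕ => Finsupp.single o 2))

/-- the ring of the coefficients -/
abbrev Q0 : Type _ := MvPolynomial (Option ℕ) F ⧸ J2 F

/-- the variables -/
noncomputable def ex (o : Option ℕ) : Q0 F := Ideal.Quotient.mk (J2 F) (MvPolynomial.X o)

theorem ex_sq (o : Option ℕ) : ex F o * ex F o = 0 := by
  rw [ex, ← map_mul]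
  refine Ideal.Quotient.eq_zero_iff_mem.2 (Ideal.subset_span ⟨Finsupp.single o 2, ⟨o, rfl⟩, ?_⟩)
  show MvPolynomial.monomial (Finsupp.single o 2) (1 : F) = _
  rw [← sq, MvPolynomial.X_pow_eq_monomial]

/-- the ring with `lam` -/
abbrev R0 : Type _ := QuadraticAlgebra (Q0 F) 1 (ex F none)

/-- `lam` -/
noncomputable def lam0 : R0 F := ⟨0, 1⟩

/-- the elements `e_i` -/
noncomputable def e0 (i : ℕ) : R0 F := algebraMap (Q0 F) (R0 F) (ex F (some i))

theorem e0_sq (i : ℕ) : e0 F i * e0 F i = 0 := by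
  rw [e0, ← map_mul, ex_sq, map_zero]

theorem Q0_two [CharP F 2] : (2 : Q0 F) = 0 := by
  have h : (2 : Q0 F) = algebraMap F (Q0 F) 2 := by rw [map_ofNat]
  have h2 : (2 : F) = 0 := CharTwo.two_eq_zero
  rw [h, h2, map_zero]

theorem R0_two [CharP F 2] : (2 : R0 F) = 0 := by
  have h : (2 : R0 F) = algebraMap (Q0 F) (R0 F) 2 := by rw [map_ofNat]
  rw [h, Q0_two, map_zero]

theorem lam_sq : lam0 F ^ 2 = ⟨1, ex F none⟩ := by
  rw [sq, lam0]
  ext <;> simp

theorem lam_four [CharP F 2] : lam0 F ^ 4 = 1 := by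
  have h : lam0 F ^ 4 = lam0 F ^ 2 * lam0 F ^ 2 := by ring
  rw [h, lam_sq]
  ext
  · simp [ex_sq, QuadraticAlgebra.re_one, QuadraticAlgebra.im_one]
  · have h2 := Q0_two F
    simp [mul_assoc, ex_sq, QuadraticAlgebra.re_one, QuadraticAlgebra.im_one]
    linear_combination ex F none * h2

theorem lam_eta [CharP F 2] : (lam0 F ^ 2 + 1) * lam0 F = algebraMap (Q0 F) (R0 F) (ex F none) := by
  rw [lam_sq, lam0]
  have h2 := Q0_two F
  have h3 := ex_sq F none
  ext
  · simp [QuadraticAlgebra.re_one, QuadraticAlgebra.im_one]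
  · simp [QuadraticAlgebra.re_one, QuadraticAlgebra.im_one]
    linear_combination h2 + h3

/-- the augmentation -/
noncomputable def aug0 : Q0 F →+* F := Ideal.Quotient.lift (J2 F) MvPolynomial.constantCoeff (by
  intro p hp
  have h : J2 F ≤ RingHom.ker (MvPolynomial.constantCoeff (R := F) (σ := Option ℕ)) := by
    refine Ideal.span_le.2 ?_
    rintro _ ⟨_, ⟨o, rfl⟩, rfl⟩
    show MvPolynomial.constantCoeff (MvPolynomial.monomial (Finsupp.single o 2) (1 : F)) = 0
    rw [MvPolynomial.constantCoeff_monomial, if_neg]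
    intro h
    have h2 := DFunLike.congr_fun h o
    simp at h2
  exact h hp)

theorem aug0_mk (p : MvPolynomial (Option ℕ) F) :
    aug0 F (Ideal.Quotient.mk (J2 F) p) = MvPolynomial.constantCoeff p := rfl

theorem aug0_ex (o : Option ℕ) : aug0 F (ex F o) = 0 := by
  rw [ex, aug0_mk, MvPolynomial.constantCoeff_X]

/-- the exponent of a product of different variables -/
noncomputable def ind (T : Finset (Option ℕ)) : Option ℕ →₀ ℕ := ∑ o ∈ T, Finsupp.single o 1

theorem ind_apply (T : Finset (Option ℕ)) (o : Option ℕ) : ind T o = if o ∈ T then 1 else 0 := by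
  rw [ind, Finsupp.finsetSum_apply]
  simp [Finsupp.single_apply]

theorem ind_le {T U : Finset (Option ℕ)} (h : ind T ≤ ind U) : T ⊆ U := by
  intro o ho
  have h1 := h o
  rw [ind_apply, ind_apply, if_pos ho] at h1
  by_contra h2
  rw [if_neg h2] at h1
  omega

theorem mem_J2 {p : MvPolynomial (Option ℕ) F} (hp : p ∈ J2 F) (T : Finset (Option ℕ)) :
    MvPolynomial.coeff (ind T) p = 0 := by
  rw [J2, MvPolynomial.mem_ideal_span_monomial_image] at hp
  by_contra h
  obtain ⟨_, ⟨o, rfl⟩, h2⟩ := hp _ (MvPolynomial.mem_support_iff.2 h)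
  have h3 := h2 o
  rw [ind_apply] at h3
  simp only [Finsupp.single_eq_same] at h3
  split_ifs at h3 <;> omega

theorem prod_ex (T : Finset (Option ℕ)) : ∏ o ∈ T, ex F o
    = Ideal.Quotient.mk (J2 F) (MvPolynomial.monomial (ind T) 1) := by
  have h : MvPolynomial.monomial (ind T) (1 : F) = ∏ o ∈ T, MvPolynomial.X o := by
    rw [ind, MvPolynomial.monomial_sum_one]
    rfl
  rw [h, map_prod]
  rfl

theorem Q0_smul (k : F) (x : Q0 F) : k • x = algebraMap F (Q0 F) k * x := by
  obtain ⟨p, rfl⟩ := Ideal.Quotient.mk_surjective x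
  show Ideal.Quotient.mk (J2 F) (k • p) = Ideal.Quotient.mk (J2 F) (MvPolynomial.C k * p)
  rw [MvPolynomial.smul_eq_C_mul]

/-- the coefficients of `∏ o ∈ T0, e_o` in a sum of multiples of products with at least as many factors -/
theorem kappa {ι : Type*} (s : Finset ι) (c : ι → F) (T : ι → Finset (Option ℕ)) (q : ι → Q0 F)
    (T0 : Finset (Option ℕ)) (hT : ∀ i ∈ s, T0.card ≤ (T i).card)
    (h : ∑ i ∈ s, c i • ((∏ o ∈ T i, ex F o) * q i) = 0) :
    ∑ i ∈ s, (if T i = T0 then c i * aug0 F (q i) else 0) = 0 := by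
  have h1 : ∀ i, ∃ p, Ideal.Quotient.mk (J2 F) p = q i := fun i => Ideal.Quotient.mk_surjective (q i)
  choose p hp using h1
  have h2 : ∑ i ∈ s, c i • (MvPolynomial.monomial (ind (T i)) 1 * p i) ∈ J2 F := by
    rw [← Ideal.Quotient.eq_zero_iff_mem, map_sum, ← h]
    refine Finset.sum_congr rfl fun i _ => ?_
    rw [prod_ex, ← hp, ← map_mul]
    rfl
  have h3 := mem_J2 F h2 T0
  rw [MvPolynomial.coeff_sum] at h3
  refine Eq.trans ?_ h3
  refine Finset.sum_congr rfl fun i hi => ?_
  rw [MvPolynomial.coeff_smul, MvPolynomial.coeff_monomial_mul', one_mul, smul_eq_mul]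
  by_cases h4 : T i = T0
  · rw [if_pos h4, h4, if_pos le_rfl, tsub_self, ← hp, aug0_mk]
    rfl
  · rw [if_neg h4, if_neg, mul_zero]
    intro h5
    exact h4 (Finset.eq_of_subset_of_card_le (ind_le h5) (hT i hi))

end

section

variable (F : Type*) [Field F] [CharP F 2]

/-- the model -/
abbrev M0 : Type _ := MF F (e0 F) (lam0 F) (R0_two F) (e0_sq F)

/-- the homomorphism -/
noncomputable abbrev Ps0 : FB F →ₙₐ[F] M0 F := Ps F (e0 F) (lam0 F) (R0_two F) (e0_sq F)

/-- the right-nested products -/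
noncomputable abbrev rp0 (g : List ℕ) : M0 F := rpM F (e0 F) (lam0 F) (R0_two F) (e0_sq F) g

omit [CharP F 2] in
theorem prod_X (L : List ℕ) : (L.map MvPolynomial.X).prod
    = MvPolynomial.monomial (Multiset.toFinsupp (L : Multiset ℕ)) (1 : F) := by
  induction L with
  | nil =>
    rw [List.map_nil, List.prod_nil]
    simp
  | cons i L ih =>
    rw [List.map_cons, List.prod_cons, ih, ← Multiset.cons_coe, ← Multiset.singleton_add, map_add,
      Multiset.toFinsupp_singleton, MvPolynomial.X, MvPolynomial.monomial_mul, mul_one]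

/-- independence of the elements `lam ∏ (o ∈ T) e_o x^G` modulo the polynomials without `t` -/
theorem indep [Infinite F] {ι : Type*} (c : ι →₀ F) (T : ι → Finset (Option ℕ)) (G : ι → Multiset ℕ)
    (hinj : ∀ i ∈ c.support, ∀ j ∈ c.support, T i = T j → G i = G j → i = j) (P : ι → FB F)
    (hP : ∀ i ∈ c.support, Ps0 F (P i)
      = (lam0 F * algebraMap (Q0 F) (R0 F) (∏ o ∈ T i, ex F o)) • rp0 F ((G i).sort (· ≤ ·))) (f : FA F)
    (h : evt F (c.sum fun i a => a • P i) = evt F (eml F f)) : c = 0 := by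
  by_contra hc
  obtain ⟨i0, hi0, hmin⟩ := Finset.exists_min_image c.support (fun i => (T i).card)
    (Finsupp.support_nonempty_iff.2 hc)
  have h1 : Ps0 F ((c.sum fun i a => a • P i) - eml F f) = 0 :=
    Ps_vanish F _ _ _ _ (lam_four F) (by rw [map_sub, h, sub_self])
  rw [map_sub, sub_eq_zero, Finsupp.sum, map_sum] at h1
  have hq : ∀ i, ∃ q : MvPolynomial ℕ (Q0 F), ov F (e0 F) (lam0 F) (R0_two F) (e0_sq F)
      (rp0 F ((G i).sort (· ≤ ·))) 1 = MvPolynomial.map (algebraMap (Q0 F) (R0 F)) q ∧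
      MvPolynomial.map (aug0 F) q = (((G i).sort (· ≤ ·)).map MvPolynomial.X).prod := by
    intro i
    obtain ⟨q, hq1, hq2⟩ := Pres2_prod (F := F) (Q := Q0 F) (R := R0 F) (e := e0 F)
      (e' := fun i => ex F (some i)) (aug := aug0 F) (fun _ => rfl) (fun i => aug0_ex F _) ((G i).sort (· ≤ ·)) 1
    have h3 : MvPolynomial.map (algebraMap (Q0 F) (R0 F)) (1 : MvPolynomial ℕ (Q0 F)) = 1 := map_one _
    rw [h3] at hq1
    refine ⟨q, ?_, ?_⟩
    · rw [ov_rpM, ← hq1]
    · rw [hq2, map_one, mul_one]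
  choose q hq1 hq2 using hq
  obtain ⟨r, hr⟩ : ∃ r : MvPolynomial ℕ (Q0 F), ov F (e0 F) (lam0 F) (R0_two F) (e0_sq F) (Ps0 F (eml F f)) 1
      = MvPolynomial.map (algebraMap (Q0 F) (R0 F)) r := by
    obtain ⟨r, hr⟩ := Pres_val (F := F) (Q := Q0 F) (R := R0 F) (e := e0 F) (lam := lam0 F)
      (e' := fun i => ex F (some i)) (R0_two F) (e0_sq F) (fun _ => rfl) (lam_eta F) f 1
    have h3 : MvPolynomial.map (algebraMap (Q0 F) (R0 F)) (1 : MvPolynomial ℕ (Q0 F)) = 1 := map_one _
    rw [h3] at hr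
    exact ⟨r, hr⟩
  have h4 := congrArg (fun U => MvPolynomial.coeff (Multiset.toFinsupp (G i0))
    (ov F (e0 F) (lam0 F) (R0_two F) (e0_sq F) U 1)) h1
  simp only [hr, map_sum, LinearMap.sum_apply, MvPolynomial.coeff_sum, MvPolynomial.coeff_map] at h4
  have h5 : ∀ i ∈ c.support, MvPolynomial.coeff (Multiset.toFinsupp (G i0))
      (ov F (e0 F) (lam0 F) (R0_two F) (e0_sq F) (Ps0 F (c i • P i)) 1)
      = lam0 F * algebraMap (Q0 F) (R0 F) (c i • ((∏ o ∈ T i, ex F o) *
        MvPolynomial.coeff (Multiset.toFinsupp (G i0)) (q i))) := by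
    intro i hi
    have h10 : c i • ((∏ o ∈ T i, ex F o) * MvPolynomial.coeff (Multiset.toFinsupp (G i0)) (q i))
        = algebraMap F (Q0 F) (c i) * ((∏ o ∈ T i, ex F o) *
          MvPolynomial.coeff (Multiset.toFinsupp (G i0)) (q i)) := Q0_smul F _ _
    rw [map_smul, hP i hi, MF_smul, map_smul, map_smul, LinearMap.smul_apply, LinearMap.smul_apply, hq1,
      MvPolynomial.coeff_smul, MvPolynomial.coeff_smul, MvPolynomial.coeff_map, h10,
      map_mul (algebraMap (Q0 F) (R0 F)), map_mul (algebraMap (Q0 F) (R0 F)), ← IsScalarTower.algebraMap_apply F (Q0 F) (R0 F),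
      smul_eq_mul, smul_eq_mul]
    ring
  rw [Finset.sum_congr rfl h5, ← Finset.mul_sum, ← map_sum] at h4
  have him : ∀ y : Q0 F, (lam0 F * algebraMap (Q0 F) (R0 F) y).im = y := by
    intro y
    simp [lam0]
  have h6 := congrArg QuadraticAlgebra.im h4
  rw [him, QuadraticAlgebra.algebraMap_im] at h6
  have h7 : ∑ i ∈ c.support, c i • ((∏ o ∈ T i, ex F o) *
        MvPolynomial.coeff (Multiset.toFinsupp (G i0)) (q i)) = 0 := h6
  have h8 := kappa F c.support (fun i => c i) T _ (T i0) hmin h7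
  have h9 : ∀ i, aug0 F (MvPolynomial.coeff (Multiset.toFinsupp (G i0)) (q i)) = if G i = G i0 then 1 else 0 := by
    intro i
    rw [← MvPolynomial.coeff_map, hq2, prod_X, Multiset.sort_eq, MvPolynomial.coeff_monomial]
    refine if_congr ?_ rfl rfl
    exact Multiset.toFinsupp.injective.eq_iff
  rw [Finset.sum_eq_single i0] at h8
  · rw [if_pos rfl, h9, if_pos rfl, mul_one] at h8
    exact (Finsupp.mem_support_iff.1 hi0) h8
  · intro i hi hne
    by_cases h10 : T i = T i0
    · rw [if_pos h10, h9, if_neg (fun h => hne (hinj _ hi _ hi0 h10 h)), mul_zero]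
    · rw [if_neg h10]
  · intro h10
    exact absurd hi0 h10

end

end Pool.Agent.OM
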